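import Pool.Agent.Q136.FracTransEx

/-!
# MP_c71ca1_co: greedy weights are not optimal for Staller in the fractional transversal game

FinHypergraph: the path `1 - 2 - 3 - 4` with loops at `1` and `4`, a loop `0`, a loop `5` and the edge
`56`; starting cover function: weight `1` on `5`; Staller moves first.  The value is at least
`17/4`, while a strategy of Staller with greedy weights guarantees at most `4`.
-/

namespace Pool.Agent.Results.MP_c71ca1_co.GreedyNotOptimal

open Pool.Agent.Q136.FracTrans

/-- Submove number `k` of `m` has the largest legal weight: the largest weight which keeps the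
submove at `m.v k` legal and does not exceed the budget `1 - (weight already placed)`. -/
def LargestLegal {V : Type} (H : FinHypergraph V) (t : V → ℝ) (m : Move V) (k : ℕ) : Prop :=
  IsGreatest {x : ℝ | LegalWeight H t m k x ∧ x ≤ 1 - ∑ s ∈ Finset.range k, m.wt s} (m.w k)

/-- All submoves of `m` have the largest legal weight. -/
def Greedy {V : Type} (H : FinHypergraph V) (t : V → ℝ) (m : Move V) : Prop :=
  ∀ k : ℕ, (k : ℕ∞) < m.len → LargestLegal H t m k

/-- `GreedyCan H p t x`: in the position with cover function `t` and player `p` to move, Staller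
has a strategy in which each of her submoves has the largest legal weight and which guarantees that
the total weight added from now on is at least `x`. -/
inductive GreedyCan {V : Type} (H : FinHypergraph V) : Player → (V → ℝ) → ℝ → Prop
  | zero (p : Player) (t : V → ℝ) (x : ℝ) : x ≤ 0 → GreedyCan H p t x
  | staller (t : V → ℝ) (x : ℝ) (m : Move V) : ¬ FullyCovered H t → Legal H t m → Greedy H t m →
      GreedyCan H Player.hitter (m.apply t) (x - m.total) → GreedyCan H Player.staller t x
  | hitter (t : V → ℝ) (x : ℝ) : ¬ FullyCovered H t →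
      (∀ m : Move V, Legal H t m →
        GreedyCan H Player.staller (m.apply t) (x - m.total)) → GreedyCan H Player.hitter t x

lemma GreedyCan.can {V : Type} {H : FinHypergraph V} {p : Player} {t : V → ℝ} {x : ℝ}
    (h : GreedyCan H p t x) : StallerCan H p t x := by
  induction h with
  | zero p t x hx => exact StallerCan.zero _ _ _ hx
  | staller t x m hn hm _ _ ih => exact StallerCan.staller _ _ m hn hm ih
  | hitter t x hn _ ih => exact StallerCan.hitter _ _ hn ih

/-- A greedy legal move in the position `tq` puts weight `1` on one of the vertices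
`0, 1, 2, 3, 4`. -/
lemma greedy_move {m : Move (Fin 7)} (hm : Legal Ex.H Ex.tq m) (hg : Greedy Ex.H Ex.tq m) :
    m.total = 1 ∧ ∃ v : Fin 7, v ≠ 5 ∧ v ≠ 6 ∧ m.apply Ex.tq = Ex.t2 v := by
  classical
  have hΦ : Ex.Φ Ex.tq = 4 := by simp [Ex.tq, Ex.Φ]; norm_num
  have htot := Ex.total_eq_one hm (by rw [hΦ]; norm_num)
  refine ⟨htot, ?_⟩
  have hex : ∃ k, m.wt k ≠ 0 := by
    by_contra hcon
    push Not at hcon
    unfold Move.total at htot
    simp only [hcon, tsum_zero] at htot
    norm_num at htot
  obtain ⟨k, hk, hmin⟩ : ∃ k, m.wt k ≠ 0 ∧ ∀ s < k, m.wt s = 0 :=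
    ⟨Nat.find hex, Nat.find_spec hex, fun s hs => by
      by_contra h; exact Nat.find_min hex hs h⟩
  have hlen : (k : ℕ∞) < m.len := by
    by_contra h
    exact hk (wt_of_not_lt m h)
  have hwk : m.wt k = m.w k := wt_of_lt m hlen
  have hpos : 0 < m.w k := by
    rw [← hwk]
    exact lt_of_le_of_ne (hm.wt_nonneg k) (Ne.symm hk)
  have hbefore : ∀ E, m.before k E = 0 := by
    intro E
    unfold Move.before
    refine Finset.sum_eq_zero fun s hs => ?_
    rw [hmin s (Finset.mem_range.mp hs)]
    simp
  have hspent : ∑ s ∈ Finset.range k, m.wt s = 0 :=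
    Finset.sum_eq_zero fun s hs => hmin s (Finset.mem_range.mp hs)
  obtain ⟨⟨h0, h1, E, hE, hv, hle⟩, _⟩ := (hg k hlen).1
  rw [hbefore] at hle
  have hlt : load Ex.tq E < 1 := by linarith
  -- `load tq E = 0`
  have hload : load Ex.tq E = 0 ∧ m.v k ≠ 5 ∧ m.v k ≠ 6 := by
    simp only [Ex.H, Finset.mem_insert, Finset.mem_singleton] at hE
    rcases hE with rfl | rfl | rfl | rfl | rfl | rfl | rfl | rfl
    · simp only [Finset.mem_singleton] at hv
      rw [hv]; simp [Ex.load0, Ex.tq]
    · simp only [Finset.mem_singleton] at hv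
      rw [hv]; simp [Ex.load1, Ex.tq]
    · simp only [Finset.mem_insert, Finset.mem_singleton] at hv
      rcases hv with hv | hv <;> rw [hv] <;> simp [Ex.load12, Ex.tq]
    · simp only [Finset.mem_insert, Finset.mem_singleton] at hv
      rcases hv with hv | hv <;> rw [hv] <;> simp [Ex.load23, Ex.tq]
    · simp only [Finset.mem_insert, Finset.mem_singleton] at hv
      rcases hv with hv | hv <;> rw [hv] <;> simp [Ex.load34, Ex.tq]
    · simp only [Finset.mem_singleton] at hv
      rw [hv]; simp [Ex.load4, Ex.tq]
    · simp [Ex.load5, Ex.tq] at hlt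
    · simp [Ex.load56, Ex.tq] at hlt
  have hone : m.w k = 1 := by
    refine le_antisymm h1 ((hg k hlen).2 ⟨⟨by norm_num, le_refl _, E, hE, hv, ?_⟩, ?_⟩)
    · rw [hbefore, hload.1]; norm_num
    · rw [hspent]; norm_num
  have hother : ∀ s, s ≠ k → m.wt s = 0 := by
    intro s hs
    have hsum : m.wt k + m.wt s ≤ ∑' j, m.wt j := by
      have := hm.summable.sum_le_tsum {k, s} (fun j _ => hm.wt_nonneg j)
      rwa [Finset.sum_pair (Ne.symm hs)] at this
    have h2 := hm.wt_nonneg s
    unfold Move.total at htot
    rw [htot, hwk, hone] at hsum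
    linarith
  refine ⟨m.v k, hload.2.1, hload.2.2, ?_⟩
  funext u
  unfold Move.apply Ex.t2
  congr 1
  unfold Move.on
  rw [tsum_eq_single k]
  · rw [hwk, hone]
    by_cases h : m.v k = u <;> simp [h]
  · intro s hs
    rw [hother s hs]
    simp

/-- There are a finite hypergraph, a starting cover function (which does not fully cover the
hypergraph) and a player who moves first, such that no strategy of Staller in which each submove
has the largest legal weight is optimal, i.e. guarantees at least the value.  Moreover (numbers)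
Staller can guarantee `17/4`, and a strategy of the restricted kind guarantees at most `4`. -/
theorem result : ∃ (H : FinHypergraph (Fin 7)) (t : Fin 7 → ℝ) (p : Player),
    (∀ v, 0 ≤ t v ∧ t v ≤ 1) ∧ ¬ FullyCovered H t ∧ ¬ GreedyCan H p t (value H p t) ∧
    StallerCan H p t (17 / 4) ∧ ∀ x : ℝ, GreedyCan H p t x → x ≤ 4 := by
  have key : ∀ x : ℝ, GreedyCan Ex.H Player.staller Ex.tq x → x ≤ 4 := by
    intro x hx
    cases hx with
    | zero _ _ _ h => linarith
    | staller _ _ m _ hm hg hr =>
      obtain ⟨htot, v, h5, h6, happ⟩ := greedy_move hm hg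
      rw [htot, happ] at hr
      have := stallerCan_le hr.can (Ex.hitter_t2 v h5 h6)
      linarith
  refine ⟨Ex.H, Ex.tq, Player.staller, fun v => ⟨Ex.tq_nonneg v, ?_⟩, Ex.tq_not_covered, ?_,
    Ex.staller_tq, key⟩
  · unfold Ex.tq; split_ifs <;> norm_num
  · intro h
    have h1 := key _ h
    have h2 := Ex.le_value Ex.tq_nonneg Ex.staller_tq
    linarith

end Pool.Agent.Results.MP_c71ca1_co.GreedyNotOptimal
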